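import Pool.Agent.H17.Disk.Exist2

/-!
# Finite unit disk packings minimizing the area of an `r`-neighbourhood: 54 disks, `r ≥ 1000`
-/

set_option autoImplicit false

namespace Pool.Agent.Results.MP_642e38_co.FiftyFourDisks

open MeasureTheory
open scoped ENNReal

/-- the Euclidean plane -/
abbrev Plane := EuclideanSpace ℝ (Fin 2)

/-- `c` is the family of the centres of a packing of `n` unit disks -/
def IsPacking {n : ℕ} (c : Fin n → Plane) : Prop := ∀ j k, j ≠ k → 2 ≤ dist (c j) (c k)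

/-- the area of the union of the closed disks of radius `r` about the points `c i` -/
noncomputable def unionArea {n : ℕ} (r : ℝ) (c : Fin n → Plane) : ℝ≥0∞ :=
  volume (⋃ i, Metric.closedBall (c i) r)

/-- `c` is a packing of `n` unit disks which is densest with parameter `r` -/
def IsDensest {n : ℕ} (r : ℝ) (c : Fin n → Plane) : Prop :=
  IsPacking c ∧ ∀ x : Fin n → Plane, IsPacking x → unionArea r c ≤ unionArea r x

/-- the points of the triangular lattice of minimal distance 2 -/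
noncomputable def latticePoint (a b : ℤ) : Plane := !₂[2 * (a : ℝ) + b, √3 * (b : ℝ)]

/-- `c` is a subset of the hexagonal packing: some isometry of the plane carries the triangular
lattice of minimal distance 2 to a set which contains all the points `c i` -/
def InHexagonal {n : ℕ} (c : Fin n → Plane) : Prop :=
  ∃ φ : Plane ≃ᵢ Plane, ∀ i, ∃ a b : ℤ, c i = φ (latticePoint a b)

theorem frame {c : Fin 54 → Plane} (h : InHexagonal c) :
    ∃ p u v : Plane, ‖u‖ = 1 ∧ ‖v‖ = 1 ∧ ‖u - v‖ = 1 ∧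
      ∀ i, ∃ a b : ℤ, c i = p + ((2 : ℝ) * (a : ℝ)) • u + ((2 : ℝ) * (b : ℝ)) • v := by
  obtain ⟨φ, hφ⟩ := h
  obtain ⟨A, hA⟩ : ∃ A : Plane ≃ᵃⁱ[ℝ] Plane, A = φ.toRealAffineIsometryEquiv := ⟨_, rfl⟩
  have hAφ : ∀ x, φ x = A x := by intro x; rw [hA]; rfl
  obtain ⟨u0, hu0⟩ : ∃ u0 : Plane, u0 = !₂[(1 : ℝ), 0] := ⟨_, rfl⟩
  obtain ⟨v0, hv0⟩ : ∃ v0 : Plane, v0 = !₂[(1 : ℝ) / 2, √3 / 2] := ⟨_, rfl⟩
  have h3 : √3 ^ 2 = (3 : ℝ) := Real.sq_sqrt (by norm_num)
  have hlin : ∀ x : Plane, A x = A 0 + A.linearIsometryEquiv x := by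
    intro x
    have := A.map_vadd 0 x
    simp only [vadd_eq_add, add_zero] at this
    rw [this, add_comm]
  have nu : ‖u0‖ = 1 := by
    rw [hu0, EuclideanSpace.norm_eq]
    simp [Fin.sum_univ_two]
  have nv : ‖v0‖ = 1 := by
    rw [hv0, EuclideanSpace.norm_eq]
    rw [Fin.sum_univ_two]
    have e : ‖(!₂[(1 : ℝ) / 2, √3 / 2] : Plane) 0‖ ^ 2 + ‖(!₂[(1 : ℝ) / 2, √3 / 2] : Plane) 1‖ ^ 2
        = 1 / 4 + √3 ^ 2 / 4 := by
      simp [sq_abs, div_pow]
      norm_num
    rw [e, h3]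
    norm_num
  have nuv : ‖u0 - v0‖ = 1 := by
    rw [hu0, hv0, EuclideanSpace.norm_eq]
    rw [Fin.sum_univ_two]
    have e : ‖((!₂[(1 : ℝ), 0] - !₂[(1 : ℝ) / 2, √3 / 2] : Plane)) 0‖ ^ 2
        + ‖((!₂[(1 : ℝ), 0] - !₂[(1 : ℝ) / 2, √3 / 2] : Plane)) 1‖ ^ 2
        = 1 / 4 + √3 ^ 2 / 4 := by
      simp [div_pow]
      norm_num
    rw [e, h3]
    norm_num
  refine ⟨A 0, A.linearIsometryEquiv u0, A.linearIsometryEquiv v0, ?_, ?_, ?_, ?_⟩
  · rw [LinearIsometryEquiv.norm_map, nu]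
  · rw [LinearIsometryEquiv.norm_map, nv]
  · rw [← map_sub, LinearIsometryEquiv.norm_map, nuv]
  · intro i
    obtain ⟨a, b, hab⟩ := hφ i
    refine ⟨a, b, ?_⟩
    have e : latticePoint a b = ((2 : ℝ) * (a : ℝ)) • u0 + ((2 : ℝ) * (b : ℝ)) • v0 := by
      rw [hu0, hv0]
      ext k
      fin_cases k
      · simp [latticePoint]; ring
      · simp [latticePoint]; ring
    rw [hab, hAφ, hlin, e, map_add, map_smul, map_smul, add_assoc]

/-- There is a packing `y` of 54 unit disks such that for every `r ≥ 1000`: the union of the disks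
of radius `r` about the centres of `y` has a smaller area than for every packing of 54 unit disks
which is a subset of the hexagonal packing; a packing of 54 unit disks which is densest with
parameter `r` exists, and none is a subset of the hexagonal packing. -/
theorem result :
    ∃ y : Fin 54 → Plane, IsPacking y ∧ ∀ r : ℝ, 1000 ≤ r →
      (∀ c : Fin 54 → Plane, IsPacking c → InHexagonal c → unionArea r y < unionArea r c) ∧
      (∃ c : Fin 54 → Plane, IsDensest r c) ∧
      ∀ c : Fin 54 → Plane, IsDensest r c → ¬ InHexagonal c := by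
  refine ⟨Pool.Agent.H45.Disk.Y0, fun j k h => Pool.Agent.H45.Disk.Y0_packs h, fun r hr => ?_⟩
  have key : ∀ c : Fin 54 → Plane, IsPacking c → InHexagonal c →
      unionArea r Pool.Agent.H45.Disk.Y0 < unionArea r c := by
    intro c hc hH
    obtain ⟨p, u, v, hu, hv, huv, hlat⟩ := frame hH
    exact Pool.Agent.H17.Disk.Y0_better hr c (fun j k h => hc j k h) p u v hu hv huv hlat
  refine ⟨key, ?_, ?_⟩
  · obtain ⟨c, hc, hmin⟩ := Pool.Agent.H17.Disk.exists_densest hr
    exact ⟨c, fun j k h => hc h, fun x hx => hmin x (fun j k h => hx j k h)⟩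
  · intro c hc hH
    exact absurd (hc.2 _ (fun j k h => Pool.Agent.H45.Disk.Y0_packs h)) (not_le.mpr (key c hc.1 hH))

end Pool.Agent.Results.MP_642e38_co.FiftyFourDisks
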